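import Pool.Agent.Lib_MP_009b3c_lc.Res
import Pool.Agent.Lib_MP_009b3c_lc.Level
import Pool.Agent.Lib_MP_009b3c_lc.Gates

/-!
# Skew gems with short numbers do not exist

Let `f` be computed by a skew `2 ^ n`-gem. Its roots lie in at most `p ^ (1 / 2 + o(1))` residue
classes modulo every prime `p = 3 mod 8`, one of the roots has at least `2 ^ (n (1 - o(1)))` digits,
and at the `i`-th product gate the values at the roots are congruent modulo all primes
`p = 3 mod 8` up to `4 ^ (i (1 - o(1)))`.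
-/

namespace Pool.Agent.Results.MP_009b3c_lc.LongRoots

open Polynomial Pool.Agent.SkewGem

theorem result :
    (∀ (n : ℕ) (f : ℤ[X]), IsSkewGem n f → ∀ p : ℕ, p.Prime → p % 8 = 3 →
      ((f.roots.toFinset.image fun x : ℤ => (x : ZMod p)).card : ℝ) ≤
        √(p : ℝ) * 2 ^ (15 * √(Real.log p))) ∧
    (∃ K : ℝ, ∀ (n : ℕ) (f : ℤ[X]), IsSkewGem n f →
      (2 ≤ n → ∃ x ∈ f.roots, (2 : ℝ) ^ ((n : ℝ) - K * √(n : ℝ)) ≤ Real.log |(x : ℝ)|) ∧
      ∀ (g h : ℤ[X]) (i : ℕ), f = h.comp g → g.natDegree = 2 ^ i →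
        ∀ x ∈ f.roots, ∀ y ∈ f.roots,
          (∀ p : ℕ, p.Prime → p % 8 = 3 → (p : ℝ) ≤ (4 : ℝ) ^ ((i : ℝ) - K * √(i : ℝ)) →
            (p : ℤ) ∣ g.eval x - g.eval y) ∧
          (g.eval x ≠ g.eval y → (4 : ℝ) ^ ((i : ℝ) - K * √(i : ℝ)) ≤
            1 + Real.log |((g.eval x - g.eval y : ℤ) : ℝ)|)) ∧
    (∀ (n : ℕ) (G : Circuit) (v : Fin G.size → ℤ[X]), G.Skew →
      (∀ u, v u = (G.node u).val v) → G.products ≤ n → (v G.out).natDegree = 2 ^ n →
      ∀ u, (G.node u).IsMul →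
        ∃ (h : ℤ[X]) (i : ℕ), 1 ≤ i ∧ (v u).natDegree = 2 ^ i ∧ v G.out = h.comp (v u)) := by
  refine ⟨fun n f hf p hpr hp => residues n f hf p hpr hp, ?_, ?_⟩
  · obtain ⟨K₁, h1⟩ := height
    obtain ⟨K₀, h0, h2⟩ := levels_log
    refine ⟨max K₁ K₀, fun n f hf => ⟨fun hn => ?_, ?_⟩⟩
    · obtain ⟨x, hx, h3⟩ := h1 n f hn hf
      refine ⟨x, hx, le_trans ?_ h3⟩
      apply Real.rpow_le_rpow_of_exponent_le (by norm_num)
      have := mul_le_mul_of_nonneg_right (le_max_left K₁ K₀) (Real.sqrt_nonneg (n : ℝ))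
      linarith
    · intro g h i hfg hg x hx y hy
      exact ⟨fun p hpr hp hpK => levels_dvd (h0.trans (le_max_right K₁ K₀)) hf hfg hg hx hy p hpr
        hp hpK, fun hne => h2 _ (le_max_right K₁ K₀) hf hfg hg hx hy hne⟩
  · intro n G v hG hv hn hdeg u hu
    exact Circuit.product_gates hG hv hn hdeg u hu

end Pool.Agent.Results.MP_009b3c_lc.LongRoots
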